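import Pool.Agent.Q283.FT.Stm3
import Pool.Agent.Q193.EN.QKUM

set_option autoImplicit false

namespace Pool.Agent.Q176.FT

open NumberField IsDedekindDomain WeierstrassCurve
open Pool.Agent.Q283.FT
open Pool.Agent.TH841.SH (IsR IsX isX_zero isX_some)
open Pool.Agent.TH841.SH.D (Coch Pt act Gal IsCoc IsCob LocTriv)

lemma isR_crv {F : Type} [Field F] {e : Fin 3 → F} (he : Rt e) (L : Type) [Field L] [Algebra F L] :
    IsR ((crv e).baseChange L) (algebraMap F L (e 0)) (algebraMap F L (e 1)) (algebraMap F L (e 2)) where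
  h1 := by
    show algebraMap F L 0 = 0
    rw [map_zero]
  h2 := by
    show algebraMap F L 0 = _
    rw [← map_add, ← map_add, he.sum, map_zero, neg_zero]
  h3 := by
    show algebraMap F L 0 = 0
    rw [map_zero]
  h4 := by
    show algebraMap F L (e 0 * e 1 + e 0 * e 2 + e 1 * e 2) = _
    simp only [map_add, map_mul]
  h6 := by
    show algebraMap F L (-(e 0 * e 1 * e 2)) = _
    simp only [map_neg, map_mul]

open Classical in
lemma act_fix {F : Type} [Field F] {e : Fin 3 → F} (he : Rt e) {L : Type} [Field L] [Algebra F L] (h2 : (2 : L) ≠ 0)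
    (φ : L →ₐ[F] L) (T : Pt (crv e) L) (hT : T + T = 0) : act (crv e) φ T = T := by
  rcases (isR_crv he L).tors h2 hT with h | ⟨hn, h⟩ | ⟨hn, h⟩ | ⟨hn, h⟩
  · have h' : T = 0 := h
    rw [h', map_zero]
  all_goals
    rw [h]
    have e1 : ∀ (x y x' y' : L) (h1 : ((crv e).baseChange L).toAffine.Nonsingular x y)
      (h2 : ((crv e).baseChange L).toAffine.Nonsingular x' y'), x = x' → y = y' →
      (Affine.Point.some x y h1 : Pt (crv e) L) = Affine.Point.some x' y' h2 := by
      intro x y x' y' h1 h2 hx hy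
      subst hx hy
      rfl
    exact e1 _ _ _ _ _ _ (φ.commutes _) (map_zero φ)

open Classical in
/-- one of the two characters -/
lemma one_char {F : Type} [Field F] [NumberField F] {e : Fin 3 → F} {f : Coch (crv e)} (hf : IsLocallyConstant f)
    (h2 : ∀ σ, f σ + f σ = 0) (hm : ∀ σ τ, f (σ * τ) = f σ + f τ) {a b c : F} (hab : a ≠ b) (hac : a ≠ c) (hbc : b ≠ c)
    (h : IsR ((crv e).baseChange (AlgebraicClosure F)) (algebraMap F _ a) (algebraMap F _ b) (algebraMap F _ c)) :
    ∃ (s : AlgebraicClosure F) (d : F), d ≠ 0 ∧ s ^ 2 = algebraMap F _ d ∧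
      ∀ σ : Gal F, (σ s = s ↔ IsX ((crv e).baseChange (AlgebraicClosure F)) (algebraMap F _ a) (f σ)) := by
  have hinj : Function.Injective (algebraMap F (AlgebraicClosure F)) := (algebraMap F _).injective
  set χ : Gal F → ZMod 2 := fun σ => if IsX ((crv e).baseChange (AlgebraicClosure F)) (algebraMap F _ a) (f σ) then 0 else 1 with hχ
  have hmul : ∀ σ τ, χ (σ * τ) = χ σ + χ τ := by
    intro σ τ
    have h4 := h.isX_add two_ne_zero (hinj.ne hab) (hinj.ne hac) (hinj.ne hbc) (h2 σ) (h2 τ)
    have h5 : IsX ((crv e).baseChange (AlgebraicClosure F)) (algebraMap F _ a) (f (σ * τ)) ↔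
        (IsX ((crv e).baseChange (AlgebraicClosure F)) (algebraMap F _ a) (f σ) ↔
          IsX ((crv e).baseChange (AlgebraicClosure F)) (algebraMap F _ a) (f τ)) := by
      rw [hm]
      exact h4
    simp only [hχ]
    by_cases h6 : IsX ((crv e).baseChange (AlgebraicClosure F)) (algebraMap F _ a) (f σ) <;>
      by_cases h7 : IsX ((crv e).baseChange (AlgebraicClosure F)) (algebraMap F _ a) (f τ) <;>
      simp only [h5, h6, h7, if_true, if_false, iff_true, iff_false, not_true_eq_false] <;>
      decide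
  have hc : IsLocallyConstant χ :=
    hf.comp (fun T : Pt (crv e) (AlgebraicClosure F) =>
      if IsX ((crv e).baseChange (AlgebraicClosure F)) (algebraMap F _ a) T then (0 : ZMod 2) else 1)
  obtain ⟨s, d, hs0, hs2, hs⟩ := Pool.Agent.Q193.EN.exists_root2 (K := F) (Ω := AlgebraicClosure F) χ hmul hc
  refine ⟨s, d, ?_, hs2, fun σ => ?_⟩
  · rintro rfl
    rw [map_zero] at hs2
    exact hs0 (pow_eq_zero_iff two_ne_zero |>.1 hs2)
  · rw [hs σ]
    by_cases h6 : IsX ((crv e).baseChange (AlgebraicClosure F)) (algebraMap F _ a) (f σ)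
    · simp only [hχ, h6, if_true, ZMod.val_zero, pow_zero, one_mul]
    · simp only [hχ, h6, if_false, iff_false]
      rw [show (1 : ZMod 2).val = 1 from rfl, pow_one]
      intro h7
      apply hs0
      have h8 : (2 : AlgebraicClosure F) * s = 0 := by linear_combination -h7
      rcases mul_eq_zero.1 h8 with h9 | h9
      · exact absurd h9 two_ne_zero
      · exact h9

theorem ksa : S_KSA := by
  intro F _ _ e he f hf h2
  have hm : ∀ σ τ, f (σ * τ) = f σ + f τ := by
    intro σ τ
    rw [hf.2, act_fix he two_ne_zero _ _ (h2 τ)]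
  have h01 : e 0 ≠ e 1 := fun h => by have := he.inj h; revert this; decide
  have h02 : e 0 ≠ e 2 := fun h => by have := he.inj h; revert this; decide
  have h12 : e 1 ≠ e 2 := fun h => by have := he.inj h; revert this; decide
  have hR := isR_crv he (AlgebraicClosure F)
  obtain ⟨s, a, ha, hs, hs'⟩ := one_char hf.1 h2 hm h01 h02 h12 hR
  obtain ⟨t, b, hb, ht, ht'⟩ := one_char hf.1 h2 hm h01.symm h12 h02 hR.swap
  refine ⟨a, b, ha, hb, h2, s, t, hs, ht, fun σ => ⟨?_, ?_⟩⟩
  · rw [hs' σ]
    rfl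
  · rw [ht' σ]
    rfl

end Pool.Agent.Q176.FT
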