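import Pool.Agent.Q283.FT.Stm3

/-!
# Project FT (helper283), part KUA: classes of points
-/

set_option autoImplicit false

namespace Pool.Agent.Q176.FT.KUA

open WeierstrassCurve
open Pool.Agent.TH841.SH.D (Pt)
open Pool.Agent.Q283.FT

section

variable {F : Type} [Field F] {e : Fin 3 → F}

lemma df0 : df e 0 = e 1 - e 2 := rfl
lemma df1 : df e 1 = e 0 - e 2 := rfl
lemma df2 : df e 2 = e 0 - e 1 := rfl

lemma ne01 (he : Rt e) : e 0 ≠ e 1 := fun h => absurd (he.inj h) (by decide)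
lemma ne02 (he : Rt e) : e 0 ≠ e 2 := fun h => absurd (he.inj h) (by decide)
lemma ne12 (he : Rt e) : e 1 ≠ e 2 := fun h => absurd (he.inj h) (by decide)

lemma df_ne (he : Rt e) (l : Fin 3) : df e l ≠ 0 := by
  fin_cases l
  · exact sub_ne_zero.2 (ne12 he)
  · exact sub_ne_zero.2 (ne02 he)
  · exact sub_ne_zero.2 (ne01 he)

end

lemma sq_div {L : Type} [Field L] {a a' c : L} (hc : c ≠ 0) (ha' : a' ≠ 0) (h : IsSquare (a * c))
    (h' : IsSquare (a' * c)) : IsSquare (a / a') := by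
  obtain ⟨u, hu⟩ := h
  obtain ⟨v, hv⟩ := h'
  have hv0 : v ≠ 0 := by
    rintro rfl
    rw [mul_zero] at hv
    exact mul_ne_zero ha' hc hv
  refine ⟨u / v, ?_⟩
  rw [div_mul_div_comm, ← hu, ← hv, mul_div_mul_right _ _ hc]

lemma sq_div' {L : Type} [Field L] {a a' : L} (h : IsSquare a) (h' : IsSquare a') : IsSquare (a / a') := h.div h'

lemma sq_mul {L : Type} [Field L] {a s c : L} (h : IsSquare (a * c)) : IsSquare (a * s ^ 2 * c) := by
  obtain ⟨u, hu⟩ := h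
  exact ⟨u * s, by linear_combination s ^ 2 * hu⟩

section
variable {F : Type} [Field F] {e : Fin 3 → F} {L : Type} [Field L] [Algebra F L]

lemma nons (he : Rt e) (l : Fin 3) : ((crv e).baseChange L).toAffine.Nonsingular (algebraMap F L (e l)) 0 := by
  have h1 : ((crv e).baseChange L).toAffine.a₁ = 0 := map_zero (algebraMap F L)
  have h2 : ((crv e).baseChange L).toAffine.a₂ = 0 := map_zero (algebraMap F L)
  have h3 : ((crv e).baseChange L).toAffine.a₃ = 0 := map_zero (algebraMap F L)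
  have h4 : ((crv e).baseChange L).toAffine.a₄ = algebraMap F L (e 0 * e 1 + e 0 * e 2 + e 1 * e 2) := rfl
  have h6 : ((crv e).baseChange L).toAffine.a₆ = algebraMap F L (-(e 0 * e 1 * e 2)) := rfl
  have hs := he.sum
  have hr : e l ^ 3 + (e 0 * e 1 + e 0 * e 2 + e 1 * e 2) * e l + -(e 0 * e 1 * e 2) = 0 := by
    fin_cases l
    · show e 0 ^ 3 + (e 0 * e 1 + e 0 * e 2 + e 1 * e 2) * e 0 + -(e 0 * e 1 * e 2) = 0
      linear_combination e 0 ^ 2 * hs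
    · show e 1 ^ 3 + (e 0 * e 1 + e 0 * e 2 + e 1 * e 2) * e 1 + -(e 0 * e 1 * e 2) = 0
      linear_combination e 1 ^ 2 * hs
    · show e 2 ^ 3 + (e 0 * e 1 + e 0 * e 2 + e 1 * e 2) * e 2 + -(e 0 * e 1 * e 2) = 0
      linear_combination e 2 ^ 2 * hs
  have hd : 3 * e l ^ 2 + (e 0 * e 1 + e 0 * e 2 + e 1 * e 2) ≠ 0 := by
    fin_cases l
    · show 3 * e 0 ^ 2 + (e 0 * e 1 + e 0 * e 2 + e 1 * e 2) ≠ 0
      have : 3 * e 0 ^ 2 + (e 0 * e 1 + e 0 * e 2 + e 1 * e 2) = (e 0 - e 1) * (e 0 - e 2) := by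
        linear_combination 2 * e 0 * hs
      rw [this]
      exact mul_ne_zero (sub_ne_zero.2 (ne01 he)) (sub_ne_zero.2 (ne02 he))
    · show 3 * e 1 ^ 2 + (e 0 * e 1 + e 0 * e 2 + e 1 * e 2) ≠ 0
      have : 3 * e 1 ^ 2 + (e 0 * e 1 + e 0 * e 2 + e 1 * e 2) = (e 1 - e 0) * (e 1 - e 2) := by
        linear_combination 2 * e 1 * hs
      rw [this]
      exact mul_ne_zero (sub_ne_zero.2 (ne01 he).symm) (sub_ne_zero.2 (ne12 he))
    · show 3 * e 2 ^ 2 + (e 0 * e 1 + e 0 * e 2 + e 1 * e 2) ≠ 0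
      have : 3 * e 2 ^ 2 + (e 0 * e 1 + e 0 * e 2 + e 1 * e 2) = (e 2 - e 0) * (e 2 - e 1) := by
        linear_combination 2 * e 2 * hs
      rw [this]
      exact mul_ne_zero (sub_ne_zero.2 (ne02 he).symm) (sub_ne_zero.2 (ne12 he).symm)
  rw [Affine.nonsingular_iff, Affine.equation_iff, h1, h2, h3, h4, h6]
  constructor
  · have := congrArg (algebraMap F L) hr
    rw [map_zero, map_add, map_add, map_mul, map_pow] at this
    linear_combination -this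
  · left
    have := (map_ne_zero (algebraMap F L)).2 hd
    rw [map_add, map_mul, map_pow, map_ofNat] at this
    intro h
    apply this
    linear_combination -h

lemma alg_ne {x y : F} (h : x ≠ y) : algebraMap F L x ≠ algebraMap F L y :=
  fun h' => h ((algebraMap F L).injective h')

lemma sq_neg {i : F} (hi : i ^ 2 = -1) (x y : F) :
    IsSquare (algebraMap F L (x - y) * (algebraMap F L y - algebraMap F L x)) := by
  refine ⟨algebraMap F L (i * (x - y)), ?_⟩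
  have h := congrArg (algebraMap F L) hi
  rw [map_pow, map_neg, map_one] at h
  rw [map_mul, map_sub]
  linear_combination -(algebraMap F L x - algebraMap F L y) ^ 2 * h

lemma exi (he : Rt e) (P : Pt (crv e) L) : ∃ a b : L, Cx e L P a b := by
  rcases P with _ | ⟨x, y, h⟩
  · exact ⟨1, 1, one_ne_zero, one_ne_zero, Or.inl ⟨rfl, IsSquare.one, IsSquare.one⟩⟩
  · have hA : ∃ a : L, a ≠ 0 ∧ ((x ≠ algebraMap F L (e 0) ∧ IsSquare (a * (x - algebraMap F L (e 0)))) ∨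
        (x = algebraMap F L (e 0) ∧ IsSquare (a * algebraMap F L (df e 1 * df e 2)))) := by
      by_cases hx : x = algebraMap F L (e 0)
      · exact ⟨algebraMap F L (df e 1 * df e 2), (map_ne_zero _).2 (mul_ne_zero (df_ne he 1) (df_ne he 2)),
          Or.inr ⟨hx, _, rfl⟩⟩
      · exact ⟨x - algebraMap F L (e 0), sub_ne_zero.2 hx, Or.inl ⟨hx, _, rfl⟩⟩
    have hB : ∃ b : L, b ≠ 0 ∧ ((x ≠ algebraMap F L (e 1) ∧ IsSquare (b * (x - algebraMap F L (e 1)))) ∨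
        (x = algebraMap F L (e 1) ∧ IsSquare (b * algebraMap F L (df e 0 * df e 2)))) := by
      by_cases hx : x = algebraMap F L (e 1)
      · exact ⟨algebraMap F L (df e 0 * df e 2), (map_ne_zero _).2 (mul_ne_zero (df_ne he 0) (df_ne he 2)),
          Or.inr ⟨hx, _, rfl⟩⟩
      · exact ⟨x - algebraMap F L (e 1), sub_ne_zero.2 hx, Or.inl ⟨hx, _, rfl⟩⟩
    obtain ⟨a, ha, ha2⟩ := hA
    obtain ⟨b, hb, hb2⟩ := hB
    exact ⟨a, b, ha, hb, Or.inr ⟨x, y, h, rfl, ha2, hb2⟩⟩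

lemma comp_uniq {x x' c d a a' : L} (hxx : x = x') (hd : d ≠ 0) (ha' : a' ≠ 0)
    (h : (x ≠ c ∧ IsSquare (a * (x - c))) ∨ (x = c ∧ IsSquare (a * d)))
    (h' : (x' ≠ c ∧ IsSquare (a' * (x' - c))) ∨ (x' = c ∧ IsSquare (a' * d))) : IsSquare (a / a') := by
  subst hxx
  rcases h with ⟨h1, h2⟩ | ⟨h1, h2⟩ <;> rcases h' with ⟨h3, h4⟩ | ⟨h3, h4⟩
  · exact sq_div (sub_ne_zero.2 h1) ha' h2 h4
  · exact absurd h3 h1
  · exact absurd h1 h3
  · exact sq_div hd ha' h2 h4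

lemma uniq (he : Rt e) (P : Pt (crv e) L) (a b a' b' : L) (h : Cx e L P a b) (h' : Cx e L P a' b') :
    IsSquare (a / a') ∧ IsSquare (b / b') := by
  obtain ⟨ha, hb, h⟩ := h
  obtain ⟨ha', hb', h'⟩ := h'
  rcases h with ⟨h0, h1, h2⟩ | ⟨x, y, hn, h0, h1, h2⟩ <;>
    rcases h' with ⟨h0', h1', h2'⟩ | ⟨x', y', hn', h0', h1', h2'⟩
  · exact ⟨h1.div h1', h2.div h2'⟩
  · rw [h0] at h0'
    exact absurd h0'.symm (Affine.Point.some_ne_zero _)
  · rw [h0'] at h0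
    exact absurd h0.symm (Affine.Point.some_ne_zero _)
  · rw [h0] at h0'
    have hx : x = x' ∧ y = y' := by
      have h0'' : (Affine.Point.some x y hn : ((crv e).baseChange L).toAffine.Point) = Affine.Point.some x' y' hn' := h0'
      rwa [Affine.Point.some.injEq] at h0''
    have e1 : algebraMap F L (df e 1 * df e 2) ≠ 0 := (map_ne_zero _).2 (mul_ne_zero (df_ne he 1) (df_ne he 2))
    have e2 : algebraMap F L (df e 0 * df e 2) ≠ 0 := (map_ne_zero _).2 (mul_ne_zero (df_ne he 0) (df_ne he 2))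
    exact ⟨comp_uniq hx.1 e1 ha' h1 h1', comp_uniq hx.1 e2 hb' h2 h2'⟩

lemma comp_mul {x c d a s : L} (h : (x ≠ c ∧ IsSquare (a * (x - c))) ∨ (x = c ∧ IsSquare (a * d))) :
    (x ≠ c ∧ IsSquare (a * s ^ 2 * (x - c))) ∨ (x = c ∧ IsSquare (a * s ^ 2 * d)) := by
  rcases h with ⟨h1, h2⟩ | ⟨h1, h2⟩
  · exact Or.inl ⟨h1, sq_mul h2⟩
  · exact Or.inr ⟨h1, sq_mul h2⟩

lemma muls (P : Pt (crv e) L) (a b s s' : L) (hs : s ≠ 0) (hs' : s' ≠ 0) (h : Cx e L P a b) :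
    Cx e L P (a * s ^ 2) (b * s' ^ 2) := by
  obtain ⟨ha, hb, h⟩ := h
  refine ⟨mul_ne_zero ha (pow_ne_zero 2 hs), mul_ne_zero hb (pow_ne_zero 2 hs'), ?_⟩
  rcases h with ⟨h0, h1, h2⟩ | ⟨x, y, hn, h0, h1, h2⟩
  · exact Or.inl ⟨h0, h1.mul (IsSquare.sq s), h2.mul (IsSquare.sq s')⟩
  · exact Or.inr ⟨x, y, hn, h0, comp_mul h1, comp_mul h2⟩

end

/-- Job KUA. -/
theorem kua : S_KUA := by
  intro F _ _ i hi e he L _ _
  refine ⟨exi he, uniq he, muls, ⟨one_ne_zero, one_ne_zero, Or.inl ⟨rfl, IsSquare.one, IsSquare.one⟩⟩, fun l => ?_⟩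
  refine ⟨nons he l, ?_⟩
  have d0 := df_ne he 0
  have d1 := df_ne he 1
  have d2 := df_ne he 2
  fin_cases l
  · show Cx e L (Affine.Point.some (algebraMap F L (e 0)) 0 (nons he 0)) (algebraMap F L (df e 1 * df e 2)) (algebraMap F L (df e 2))
    refine ⟨(map_ne_zero _).2 (mul_ne_zero d1 d2), (map_ne_zero _).2 d2, Or.inr ⟨_, _, _, rfl, Or.inr ⟨rfl, _, rfl⟩, Or.inl ⟨alg_ne (ne01 he), ?_⟩⟩⟩
    rw [← map_sub]
    exact ⟨_, rfl⟩
  · show Cx e L (Affine.Point.some (algebraMap F L (e 1)) 0 (nons he 1)) (algebraMap F L (df e 2)) (algebraMap F L (df e 0 * df e 2))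
    exact ⟨(map_ne_zero _).2 d2, (map_ne_zero _).2 (mul_ne_zero d0 d2), Or.inr ⟨_, _, _, rfl, Or.inl ⟨alg_ne (ne01 he).symm, sq_neg hi _ _⟩,
      Or.inr ⟨rfl, _, rfl⟩⟩⟩
  · show Cx e L (Affine.Point.some (algebraMap F L (e 2)) 0 (nons he 2)) (algebraMap F L (df e 1)) (algebraMap F L (df e 0))
    exact ⟨(map_ne_zero _).2 d1, (map_ne_zero _).2 d0, Or.inr ⟨_, _, _, rfl, Or.inl ⟨alg_ne (ne02 he).symm, sq_neg hi _ _⟩,
      Or.inl ⟨alg_ne (ne12 he).symm, sq_neg hi _ _⟩⟩⟩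

end Pool.Agent.Q176.FT.KUA
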