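import Pool.Agent.Q176.FT.RKQ

/-!
# Project FT (helper283), part RKM: the rank over a multiquadratic extension
-/

set_option autoImplicit false
set_option linter.unusedSectionVars false

attribute [-instance] DivisionRing.toRatAlgebra

namespace Pool.Agent.Q176.FT

open WeierstrassCurve NumberField
open Pool.Agent.TH841.NF
open Pool.Agent.TH841.SH.D (Pt)
open Pool.Agent.Q283.FT (crv twi Rt S_MWR S_RKQ S_RKM)
open Pool.Agent.Q7.LK (IsPow)

/-- the sum over the subsets of `Fin (n + 1)` -/
lemma sum_fin_succ {n : ℕ} (f : Finset (Fin (n + 1)) → ℕ) :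
    ∑ T : Finset (Fin (n + 1)), f T =
      ∑ T : Finset (Fin n), (f (T.map (Fin.succEmb n)) + f (insert 0 (T.map (Fin.succEmb n)))) := by
  classical
  have h0 : (0 : Fin (n + 1)) ∉ (Finset.univ : Finset (Fin n)).map (Fin.succEmb n) := by
    simp [Fin.succ_ne_zero]
  have hu : (Finset.univ : Finset (Fin (n + 1))) =
      insert 0 ((Finset.univ : Finset (Fin n)).map (Fin.succEmb n)) := by
    ext i
    refine Fin.cases ?_ (fun j => ?_) i
    · simp
    · simp
  have hp : ∀ g : Finset (Fin (n + 1)) → ℕ,
      ∑ T ∈ ((Finset.univ : Finset (Fin n)).map (Fin.succEmb n)).powerset, g T =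
        ∑ T : Finset (Fin n), g (T.map (Fin.succEmb n)) := by
    intro g
    symm
    refine Finset.sum_bij (fun T _ => T.map (Fin.succEmb n)) ?_ ?_ ?_ ?_
    · intro T _
      rw [Finset.mem_powerset]
      exact Finset.map_subset_map.2 (Finset.subset_univ T)
    · intro T _ T' _ h
      exact Finset.map_injective _ h
    · intro T hT
      rw [Finset.mem_powerset, Finset.subset_map_iff] at hT
      obtain ⟨T', _, rfl⟩ := hT
      exact ⟨T', Finset.mem_univ _, rfl⟩
    · intro T _
      rfl
  have h1 : (Finset.univ : Finset (Finset (Fin (n + 1)))) =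
      (insert 0 ((Finset.univ : Finset (Fin n)).map (Fin.succEmb n))).powerset := by
    rw [← hu, Finset.powerset_univ]
  rw [h1, Finset.sum_powerset_insert h0, hp, hp, Finset.sum_add_distrib]

/-- squares in a quadratic extension -/
lemma sq_quad {K L : Type} [Field K] [NumberField K] [Field L] [NumberField L] [Algebra K L]
    {m : K} {s : L} (hs : s ^ 2 = algebraMap K L m) (hn : ¬ ∃ x : K, algebraMap K L x = s)
    (htop : IntermediateField.adjoin K {s} = ⊤) {a : K} (h : IsPow 2 (algebraMap K L a)) :
    IsPow 2 a ∨ IsPow 2 (m * a) := by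
  obtain ⟨σ, hσs, -, hfix⟩ := exists_conj K L hs (finrank_two hs hn htop) hn
  obtain ⟨z, hz⟩ := h
  have h1 : (σ z - z) * (σ z + z) = 0 := by
    have h2 : (σ z) ^ 2 = z ^ 2 := by rw [← map_pow, ← hz, AlgEquiv.commutes]
    linear_combination h2
  rcases mul_eq_zero.1 h1 with h2 | h2
  · obtain ⟨y, hy⟩ := hfix z (sub_eq_zero.1 h2)
    refine Or.inl ⟨y, (algebraMap K L).injective ?_⟩
    rw [hz, ← hy, map_pow]
  · have h3 : σ z = -z := eq_neg_of_add_eq_zero_left h2
    obtain ⟨y, hy⟩ := hfix (s * z) (by rw [map_mul, hσs, h3]; ring)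
    refine Or.inr ⟨y, (algebraMap K L).injective ?_⟩
    rw [map_mul, ← hs, hz, map_pow, hy]
    ring

lemma twi_twi {F : Type} [Field F] (a b : F) (e : Fin 3 → F) : twi a (twi b e) = twi (a * b) e := by
  funext i
  change a * (b * e i) = a * b * e i
  ring

/-- equal fields: equal ranks -/
lemma finrank_bij {K L : Type} [Field K] [Field L] [Algebra K L]
    (hb : Function.Surjective (algebraMap K L)) (e : Fin 3 → K) :
    Module.finrank ℤ (Pt (crv e) L) = Module.finrank ℤ (Pt (crv e) K) := by
  have S1 : Sc (algebraMap K L) 1 ((crv e).baseChange K) ((crv e).baseChange L) := by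
    refine ⟨one_ne_zero, ?_, ?_, ?_, ?_, ?_⟩
    · change algebraMap K L (crv e).a₁ = algebraMap K L (crv e).a₁ * 1; rw [mul_one]
    · change algebraMap K L (crv e).a₂ = algebraMap K L (crv e).a₂ * 1 ^ 2; rw [one_pow, mul_one]
    · change algebraMap K L (crv e).a₃ = algebraMap K L (crv e).a₃ * 1 ^ 3; rw [one_pow, mul_one]
    · change algebraMap K L (crv e).a₄ = algebraMap K L (crv e).a₄ * 1 ^ 4; rw [one_pow, mul_one]
    · change algebraMap K L (crv e).a₆ = algebraMap K L (crv e).a₆ * 1 ^ 6; rw [one_pow, mul_one]
  have hsurj : Function.Surjective (mu S1) := by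
    rintro (_ | ⟨x, y, h⟩)
    · exact ⟨0, rfl⟩
    · obtain ⟨x', hx'⟩ := hb x
      obtain ⟨y', hy'⟩ := hb y
      have hn : ((crv e).baseChange K).toAffine.Nonsingular x' y' := by
        rw [← ns_iff S1, one_pow, one_pow, mul_one, mul_one, hx', hy']
        exact h
      refine ⟨Affine.Point.some x' y' hn, ?_⟩
      refine pt_ext' (W := (crv e).baseChange L) ?_ ?_
      · change algebraMap K L x' * 1 ^ 2 = x
        rw [one_pow, mul_one, hx']
      · change algebraMap K L y' * 1 ^ 3 = y
        rw [one_pow, mul_one, hy']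
  have := (LinearEquiv.ofBijective (mu S1).toIntLinearMap ⟨mu_inj S1, hsurj⟩).finrank_eq
  exact this.symm

/-- Job RKM. -/
theorem rkm (hRKQ : Pool.Agent.Q283.FT.S_RKQ) : Pool.Agent.Q283.FT.S_RKM := by
  intro F M _ _ _ _ _ n
  induction n generalizing F with
  | zero =>
    intro m x _ htop _ e _
    have hb : Function.Surjective (algebraMap F M) := by
      intro y
      have h1 : y ∈ IntermediateField.adjoin F (Set.range x) := by rw [htop]; trivial
      rw [Set.range_eq_empty, IntermediateField.adjoin_empty, IntermediateField.mem_bot] at h1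
      exact h1
    rw [finrank_bij hb e, Fintype.sum_unique]
    have h2 : twi (∏ j ∈ (default : Finset (Fin 0)), m j) e = e := by
      funext i
      change (∏ j ∈ (default : Finset (Fin 0)), m j) * e i = e i
      rw [show (default : Finset (Fin 0)) = ∅ from Subsingleton.elim _ _, Finset.prod_empty, one_mul]
    rw [h2]
  | succ n ih =>
    intro m x hx htop hind e he
    let K : IntermediateField F M := IntermediateField.adjoin F {x 0}
    let s : K := IntermediateField.AdjoinSimple.gen F (x 0)
    have hs0 : algebraMap K M s = x 0 := rfl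
    have hs : s ^ 2 = algebraMap F K (m 0) := by
      apply (algebraMap K M).injective
      rw [map_pow, hs0, hx 0]
      rfl
    have hn : ¬ ∃ y : F, algebraMap F K y = s := by
      rintro ⟨y, hy⟩
      refine hind {0} (Finset.singleton_nonempty 0) ⟨y, (algebraMap F M).injective ?_⟩
      rw [Finset.prod_singleton, ← hx 0, ← hs0, ← hy, map_pow]
      rfl
    have hsK : IntermediateField.adjoin F {s} = (⊤ : IntermediateField F K) := by
      apply IntermediateField.lift_injective K
      rw [IntermediateField.lift_adjoin_simple, IntermediateField.lift_top]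
      rfl
    let m' : Fin n → K := fun j => algebraMap F K (m j.succ)
    let x' : Fin n → M := fun j => x j.succ
    have hx' : ∀ j, x' j ^ 2 = algebraMap K M (m' j) := fun j => hx j.succ
    have htop' : IntermediateField.adjoin K (Set.range x') = ⊤ := by
      have h1 : (⊤ : IntermediateField F M) ≤
          (IntermediateField.adjoin K (Set.range x')).restrictScalars F := by
        rw [← htop, IntermediateField.adjoin_le_iff]
        rintro _ ⟨j, rfl⟩
        refine Fin.cases ?_ (fun i => ?_) j
        · change x 0 ∈ IntermediateField.adjoin K (Set.range x')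
          rw [← hs0]
          exact IntermediateField.algebraMap_mem _ s
        · change x i.succ ∈ IntermediateField.adjoin K (Set.range x')
          exact IntermediateField.subset_adjoin K _ ⟨i, rfl⟩
      rw [eq_top_iff]
      intro y _
      exact h1 (show y ∈ (⊤ : IntermediateField F M) from trivial)
    have hprod : ∀ T : Finset (Fin n), ∏ j ∈ T, m' j =
        algebraMap F K (∏ j ∈ T.map (Fin.succEmb n), m j) := by
      intro T
      rw [map_prod, Finset.prod_map]
      rfl
    have h0T : ∀ T : Finset (Fin n), (0 : Fin (n + 1)) ∉ T.map (Fin.succEmb n) := by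
      intro T
      simp [Fin.succ_ne_zero]
    have hind' : ∀ T : Finset (Fin n), T.Nonempty → ¬ IsPow 2 (∏ j ∈ T, m' j) := by
      intro T hT h
      rw [hprod] at h
      rcases sq_quad hs hn hsK h with h1 | h1
      · exact hind _ (hT.map) h1
      · refine hind (insert 0 (T.map (Fin.succEmb n))) (Finset.insert_nonempty _ _) ?_
        rw [Finset.prod_insert (h0T T)]
        exact h1
    let e' : Fin 3 → K := fun i => algebraMap F K (e i)
    have he' : Rt e' := rt_map he
    have h3 := ih (F := K) m' x' hx' htop' hind' e' he'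
    have h4 : Module.finrank ℤ (Pt (crv e') M) = Module.finrank ℤ (Pt (crv e) M) :=
      finrank_base e e' (fun i => rfl)
    rw [← h4, h3, sum_fin_succ]
    refine Finset.sum_congr rfl fun T _ => ?_
    have hne : (∏ j ∈ T.map (Fin.succEmb n), m j) ≠ 0 := by
      intro h0
      rcases T.eq_empty_or_nonempty with rfl | hT
      · rw [Finset.map_empty, Finset.prod_empty] at h0
        exact one_ne_zero h0
      · exact hind _ hT.map ⟨0, by rw [h0]; ring⟩
    have h5 : Module.finrank ℤ (Pt (crv (twi (∏ j ∈ T, m' j) e')) K) =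
        Module.finrank ℤ (Pt (crv (twi (∏ j ∈ T.map (Fin.succEmb n), m j) e)) K) := by
      refine finrank_base _ _ fun i => ?_
      change (∏ j ∈ T, m' j) * algebraMap F K (e i) = algebraMap F K ((∏ j ∈ T.map (Fin.succEmb n), m j) * e i)
      rw [hprod, map_mul]
    rw [h5, hRKQ F K (m 0) s hs hn hsK _ (rt_twi he hne), twi_twi, Finset.prod_insert (h0T T)]

end Pool.Agent.Q176.FT
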