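import Pool.Agent.Q283.FT.Stm5
import Pool.Agent.TH841.NF.Tm

/-!
# Project FT (helper283), part RKQ: the rank over a quadratic extension

The general lemmas `rank_add`, `exists_conj` and the structure of the proof are those of
`Pool/Agent/Y888/XD/Qf.lean` (library).
-/

set_option autoImplicit false
set_option linter.unusedSectionVars false

attribute [-instance] DivisionRing.toRatAlgebra

namespace Pool.Agent.Q176.FT

open WeierstrassCurve NumberField
open Pool.Agent.TH841.NF
open Pool.Agent.TH841.SH.D (Pt)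
open Pool.Agent.Q283.FT (crv twi Rt S_MWR S_RKQ S_RKM)

section
variable {k : Type} [Field k]

/-- the points of a curve -/
def MP (W : WeierstrassCurve k) : Type := W.toAffine.Point

/-- the group law -/
noncomputable instance MP.group (W : WeierstrassCurve k) : AddCommGroup (MP W) :=
  @Affine.Point.instAddCommGroup k _ W.toAffine (Classical.decEq k)

end

section
variable {k k' : Type} [Field k] [Field k'] {ι : k →+* k'} {u : k'} {W : WeierstrassCurve k}
  {W' : WeierstrassCurve k'}

lemma pt_ext' {x y x' y' : k} {h : W.toAffine.Nonsingular x y} {h' : W.toAffine.Nonsingular x' y'}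
    (hx : x = x') (hy : y = y') :
    (Affine.Point.some x y h : W.toAffine.Point) = Affine.Point.some x' y' h' := by
  subst hx hy
  rfl

lemma pt_inj' {x y x' y' : k} {h : W.toAffine.Nonsingular x y} {h' : W.toAffine.Nonsingular x' y'}
    (e : (Affine.Point.some x y h : W.toAffine.Point) = Affine.Point.some x' y' h') :
    x = x' ∧ y = y' := by
  rwa [Affine.Point.some.injEq] at e

/-- the map on points -/
noncomputable def mu (S : Sc ι u W W') : MP W →+ MP W' where
  toFun := tF S
  map_zero' := rfl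
  map_add' := @tF_add _ _ _ _ _ _ _ _ S (Classical.decEq k) (Classical.decEq k')

lemma mu_inj (S : Sc ι u W W') : Function.Injective (mu S) := by
  have hu2 : u ^ 2 ≠ 0 := pow_ne_zero 2 S.hu
  have hu3 : u ^ 3 ≠ 0 := pow_ne_zero 3 S.hu
  intro P Q h
  rcases P with _ | ⟨x, y, hx⟩ <;> rcases Q with _ | ⟨x', y', hx'⟩
  · rfl
  · exact absurd h.symm (Affine.Point.some_ne_zero _)
  · exact absurd h (Affine.Point.some_ne_zero _)
  · have h' : (Affine.Point.some (ι x * u ^ 2) (ι y * u ^ 3) ((ns_iff S x y).2 hx) :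
        W'.toAffine.Point) = .some (ι x' * u ^ 2) (ι y' * u ^ 3) ((ns_iff S x' y').2 hx') := h
    rw [Affine.Point.some.injEq] at h'
    have h1 := ι.injective (mul_right_cancel₀ hu2 h'.1)
    have h2 := ι.injective (mul_right_cancel₀ hu3 h'.2)
    exact pt_ext' h1 h2

end

/-- the rank of a group in terms of two subgroups with an involution -/
theorem rank_add {G G₁ G₂ : Type} [AddCommGroup G] [AddCommGroup G₁] [AddCommGroup G₂]
    [Module.Finite ℤ G] [Module.Finite ℤ G₁] [Module.Finite ℤ G₂] (f₁ : G₁ →+ G) (f₂ : G₂ →+ G)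
    (h₁ : Function.Injective f₁) (h₂ : Function.Injective f₂) (T : G →+ G)
    (t₁ : ∀ P, T (f₁ P) = f₁ P) (t₂ : ∀ Q, T (f₂ Q) = -f₂ Q) (tt : ∀ R, T (T R) = R)
    (i₁ : ∀ R, T R = R → ∃ P, f₁ P = R) (i₂ : ∀ R, T R = -R → ∃ Q, f₂ Q = R) :
    Module.finrank ℤ G = Module.finrank ℤ G₁ + Module.finrank ℤ G₂ := by
  let f : (G₁ × G₂) →ₗ[ℤ] G := (f₁.coprod f₂).toIntLinearMap
  have hf : ∀ x : G₁ × G₂, f x = f₁ x.1 + f₂ x.2 := fun x => rfl
  have h3 : Module.finrank ℤ (G ⧸ LinearMap.range f) + Module.finrank ℤ (LinearMap.range f) =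
      Module.finrank ℤ G := Submodule.finrank_quotient_add_finrank _
  have h4 : Module.finrank ℤ ((G₁ × G₂) ⧸ LinearMap.ker f) + Module.finrank ℤ (LinearMap.ker f) =
      Module.finrank ℤ (G₁ × G₂) := Submodule.finrank_quotient_add_finrank _
  have h5 : Module.finrank ℤ ((G₁ × G₂) ⧸ LinearMap.ker f) =
      Module.finrank ℤ (LinearMap.range f) := f.quotKerEquivRange.finrank_eq
  have h20 : (2 : ℤ) ∈ nonZeroDivisors ℤ := mem_nonZeroDivisors_of_ne_zero two_ne_zero
  have h6 : Module.finrank ℤ (G ⧸ LinearMap.range f) = 0 := by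
    rw [Module.finrank_eq_zero_iff_isTorsion]
    intro x
    obtain ⟨R, rfl⟩ := Submodule.Quotient.mk_surjective _ x
    refine ⟨⟨2, h20⟩, ?_⟩
    change (2 : ℤ) • (Submodule.Quotient.mk R : G ⧸ LinearMap.range f) = 0
    rw [← Submodule.Quotient.mk_smul, Submodule.Quotient.mk_eq_zero]
    obtain ⟨P, hP⟩ := i₁ (R + T R) (by rw [map_add, tt, add_comm])
    obtain ⟨Q, hQ⟩ := i₂ (R - T R) (by rw [map_sub, tt, neg_sub])
    refine ⟨(P, Q), ?_⟩
    rw [hf, hP, hQ, two_smul]
    abel
  have h7 : Module.finrank ℤ (LinearMap.ker f) = 0 := by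
    rw [Module.finrank_eq_zero_iff_isTorsion]
    rintro ⟨⟨P, Q⟩, hx⟩
    refine ⟨⟨2, h20⟩, ?_⟩
    change (2 : ℤ) • (⟨(P, Q), hx⟩ : LinearMap.ker f) = 0
    rw [LinearMap.mem_ker, hf] at hx
    change f₁ P + f₂ Q = 0 at hx
    have e1 := congrArg T hx
    rw [map_add, t₁, t₂, map_zero] at e1
    have e2 : (2 : ℤ) • P = 0 := by
      apply h₁
      rw [map_zero, two_smul, map_add]
      calc f₁ P + f₁ P = (f₁ P + f₂ Q) + (f₁ P + -f₂ Q) := by abel
        _ = 0 := by rw [hx, e1, add_zero]
    have e3 : (2 : ℤ) • Q = 0 := by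
      apply h₂
      rw [map_zero, two_smul, map_add]
      calc f₂ Q + f₂ Q = (f₁ P + f₂ Q) - (f₁ P + -f₂ Q) := by abel
        _ = 0 := by rw [hx, e1, sub_zero]
    apply Subtype.ext
    change (2 : ℤ) • (P, Q) = (0 : G₁ × G₂)
    rw [Prod.smul_mk, e2, e3]
    rfl
  have h8 : Module.finrank ℤ ((G₁ × G₂) ⧸ LinearMap.ker (LinearMap.snd ℤ G₁ G₂)) +
      Module.finrank ℤ (LinearMap.ker (LinearMap.snd ℤ G₁ G₂)) = Module.finrank ℤ (G₁ × G₂) :=
    Submodule.finrank_quotient_add_finrank _
  have h9 : Module.finrank ℤ ((G₁ × G₂) ⧸ LinearMap.ker (LinearMap.snd ℤ G₁ G₂)) =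
      Module.finrank ℤ G₂ :=
    ((LinearMap.snd ℤ G₁ G₂).quotKerEquivOfSurjective LinearMap.snd_surjective).finrank_eq
  have h10 : Module.finrank ℤ (LinearMap.ker (LinearMap.snd ℤ G₁ G₂)) = Module.finrank ℤ G₁ := by
    rw [LinearMap.ker_snd]
    exact (LinearEquiv.ofInjective (LinearMap.inl ℤ G₁ G₂) LinearMap.inl_injective).finrank_eq.symm
  omega

/-- the degree of a quadratic extension -/
theorem finrank_two {K L : Type} [Field K] [Field L] [Algebra K L] {m : K} {s : L}
    (hs : s ^ 2 = algebraMap K L m) (hn : ¬ ∃ x : K, algebraMap K L x = s)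
    (htop : IntermediateField.adjoin K {s} = ⊤) : Module.finrank K L = 2 := by
  have hp : (Polynomial.X ^ 2 - Polynomial.C m : Polynomial K) ≠ 0 :=
    Polynomial.X_pow_sub_C_ne_zero two_pos m
  have hr : Polynomial.aeval s (Polynomial.X ^ 2 - Polynomial.C m : Polynomial K) = 0 := by
    simp [hs]
  have hint : IsIntegral K s :=
    ⟨Polynomial.X ^ 2 - Polynomial.C m, Polynomial.monic_X_pow_sub_C m two_ne_zero, by
      rw [← Polynomial.aeval_def]; exact hr⟩
  have h1 : (minpoly K s).natDegree ≤ 2 := by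
    have := Polynomial.natDegree_le_of_dvd (minpoly.dvd K s hr) hp
    rwa [Polynomial.natDegree_X_pow_sub_C] at this
  have h2 : 0 < (minpoly K s).natDegree := minpoly.natDegree_pos hint
  have h3 : (minpoly K s).natDegree ≠ 1 := by
    intro h
    rw [minpoly.natDegree_eq_one_iff] at h
    exact hn h
  have h4 := IntermediateField.adjoin.finrank hint
  rw [htop, IntermediateField.finrank_top'] at h4
  omega

/-- the automorphism of a quadratic extension -/
theorem exists_conj (K L : Type) [Field K] [NumberField K] [Field L] [NumberField L] [Algebra K L]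
    {m : K} {r : L} (hr : r ^ 2 = algebraMap K L m) (h2 : Module.finrank K L = 2)
    (hK : ¬ ∃ x : K, algebraMap K L x = r) :
    ∃ σ : L ≃ₐ[K] L, σ r = -r ∧ (∀ x, σ (σ x) = x) ∧
      ∀ x, σ x = x → ∃ y : K, algebraMap K L y = x := by
  have hfd : FiniteDimensional K L := Module.finite_of_finrank_pos (by rw [h2]; norm_num)
  have hq : Algebra.IsQuadraticExtension K L := ⟨h2⟩
  have hcz : CharZero K := inferInstance
  have hsep : Algebra.IsSeparable K L := inferInstance
  have hg : IsGalois K L := inferInstance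
  have hcard : Nat.card (L ≃ₐ[K] L) = 2 := by rw [IsGalois.card_aut_eq_finrank, h2]
  obtain ⟨σ, hσ, huniq⟩ := (Nat.card_eq_two_iff' (1 : L ≃ₐ[K] L)).1 hcard
  have hfix : ∀ x, σ x = x → ∃ y : K, algebraMap K L y = x := by
    intro x hx
    have h3 : x ∈ (⊥ : IntermediateField K L) := by
      rw [IsGalois.mem_bot_iff_fixed]
      intro f
      by_cases hf : f = 1
      · rw [hf]; rfl
      · rw [huniq f hf]; exact hx
    exact IntermediateField.mem_bot.1 h3
  refine ⟨σ, ?_, ?_, hfix⟩
  · have h3 : σ r ≠ r := by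
      intro h
      exact hK (hfix r h)
    have h4 : (σ r - r) * (σ r + r) = 0 := by
      have h5 : (σ r) ^ 2 = algebraMap K L m := by rw [← map_pow, hr, AlgEquiv.commutes]
      linear_combination h5 - hr
    rcases mul_eq_zero.1 h4 with h5 | h5
    · exact absurd (sub_eq_zero.1 h5) h3
    · exact eq_neg_of_add_eq_zero_left h5
  · intro x
    have h3 : σ * σ = 1 := by
      by_contra h
      have h4 := huniq _ h
      exact hσ (mul_eq_left.1 h4)
    exact DFunLike.congr_fun h3 x

lemma crv_a1 {F : Type} [Field F] (e : Fin 3 → F) : (crv e).a₁ = 0 := rfl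
lemma crv_a2 {F : Type} [Field F] (e : Fin 3 → F) : (crv e).a₂ = 0 := rfl
lemma crv_a3 {F : Type} [Field F] (e : Fin 3 → F) : (crv e).a₃ = 0 := rfl
lemma crv_a4 {F : Type} [Field F] (e : Fin 3 → F) :
    (crv e).a₄ = e 0 * e 1 + e 0 * e 2 + e 1 * e 2 := rfl
lemma crv_a6 {F : Type} [Field F] (e : Fin 3 → F) : (crv e).a₆ = -(e 0 * e 1 * e 2) := rfl

/-- the base change of a curve depends only on the images of the roots -/
lemma base_eq {F K M : Type} [Field F] [Field K] [Field M] [Algebra F M] [Algebra K M]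
    (e : Fin 3 → F) (e' : Fin 3 → K) (h : ∀ i, algebraMap K M (e' i) = algebraMap F M (e i)) :
    (crv e').baseChange M = (crv e).baseChange M := by
  ext
  · change algebraMap K M (crv e').a₁ = algebraMap F M (crv e).a₁
    rw [crv_a1, crv_a1, map_zero, map_zero]
  · change algebraMap K M (crv e').a₂ = algebraMap F M (crv e).a₂
    rw [crv_a2, crv_a2, map_zero, map_zero]
  · change algebraMap K M (crv e').a₃ = algebraMap F M (crv e).a₃
    rw [crv_a3, crv_a3, map_zero, map_zero]
  · change algebraMap K M (crv e').a₄ = algebraMap F M (crv e).a₄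
    rw [crv_a4, crv_a4]
    simp only [map_add, map_mul, h]
  · change algebraMap K M (crv e').a₆ = algebraMap F M (crv e).a₆
    rw [crv_a6, crv_a6]
    simp only [map_neg, map_mul, h]

lemma rt_map {F L : Type} [Field F] [Field L] [Algebra F L] {e : Fin 3 → F} (h : Rt e) :
    Rt (fun i => algebraMap F L (e i)) :=
  ⟨fun i j hij => h.inj ((algebraMap F L).injective hij), by
    rw [← map_add, ← map_add, h.sum, map_zero]⟩

lemma rt_twi {F : Type} [Field F] {e : Fin 3 → F} (h : Rt e) {m : F} (hm : m ≠ 0) :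
    Rt (twi m e) :=
  ⟨fun i j hij => h.inj (mul_left_cancel₀ hm hij), by
    change m * e 0 + m * e 1 + m * e 2 = 0
    rw [← mul_add, ← mul_add, h.sum, mul_zero]⟩

/-- equal base changes: equal ranks -/
lemma finrank_base {F K M : Type} [Field F] [Field K] [Field M] [Algebra F M] [Algebra K M]
    (e : Fin 3 → F) (e' : Fin 3 → K) (h : ∀ i, algebraMap K M (e' i) = algebraMap F M (e i)) :
    Module.finrank ℤ (Pt (crv e') M) = Module.finrank ℤ (Pt (crv e) M) := by
  change Module.finrank ℤ (MP ((crv e').baseChange M)) = Module.finrank ℤ (MP ((crv e).baseChange M))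
  rw [base_eq e e' h]

lemma finite_base {F L : Type} [Field F] [Field L] [NumberField L] [Algebra F L]
    (hMWR : S_MWR) {e : Fin 3 → F} (h : Rt e) :
    Module.Finite ℤ (MP ((crv e).baseChange L)) := by
  have h1 : Module.Finite ℤ (MP ((crv (fun i => algebraMap F L (e i))).baseChange L)) :=
    (hMWR L (fun i => algebraMap F L (e i)) (rt_map h)).1
  rw [base_eq e (fun i => algebraMap F L (e i)) (fun i => rfl)] at h1
  exact h1

/-- Job RKQ. -/
theorem rkq (hMWR : Pool.Agent.Q283.FT.S_MWR) : Pool.Agent.Q283.FT.S_RKQ := by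
  intro K L _ _ _ _ _ m r hr hK htop e he
  have h2 := finrank_two hr hK htop
  obtain ⟨σ, hσr, hσσ, hfix⟩ := exists_conj K L hr h2 hK
  have hr0 : r ≠ 0 := by
    rintro rfl
    exact hK ⟨0, map_zero _⟩
  have hm : m ≠ 0 := by
    rintro rfl
    rw [map_zero] at hr
    exact hr0 (pow_eq_zero_iff two_ne_zero |>.1 hr)
  have hmL : algebraMap K L m ≠ 0 := (map_ne_zero _).2 hm
  have S1 : Sc (algebraMap K L) 1 ((crv e).baseChange K) ((crv e).baseChange L) := by
    refine ⟨one_ne_zero, ?_, ?_, ?_, ?_, ?_⟩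
    · change algebraMap K L (crv e).a₁ = algebraMap K L (crv e).a₁ * 1; rw [mul_one]
    · change algebraMap K L (crv e).a₂ = algebraMap K L (crv e).a₂ * 1 ^ 2; rw [one_pow, mul_one]
    · change algebraMap K L (crv e).a₃ = algebraMap K L (crv e).a₃ * 1 ^ 3; rw [one_pow, mul_one]
    · change algebraMap K L (crv e).a₄ = algebraMap K L (crv e).a₄ * 1 ^ 4; rw [one_pow, mul_one]
    · change algebraMap K L (crv e).a₆ = algebraMap K L (crv e).a₆ * 1 ^ 6; rw [one_pow, mul_one]
  have S2 : Sc (algebraMap K L) r⁻¹ ((crv (twi m e)).baseChange K) ((crv e).baseChange L) := by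
    refine ⟨inv_ne_zero hr0, ?_, ?_, ?_, ?_, ?_⟩
    · change algebraMap K L (crv e).a₁ = algebraMap K L (crv (twi m e)).a₁ * r⁻¹
      rw [crv_a1, crv_a1, map_zero, zero_mul]
    · change algebraMap K L (crv e).a₂ = algebraMap K L (crv (twi m e)).a₂ * r⁻¹ ^ 2
      rw [crv_a2, crv_a2, map_zero, zero_mul]
    · change algebraMap K L (crv e).a₃ = algebraMap K L (crv (twi m e)).a₃ * r⁻¹ ^ 3
      rw [crv_a3, crv_a3, map_zero, zero_mul]
    · change algebraMap K L (crv e).a₄ = algebraMap K L (crv (twi m e)).a₄ * r⁻¹ ^ 4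
      have h3 : (crv (twi m e)).a₄ = m ^ 2 * (crv e).a₄ := by
        rw [crv_a4, crv_a4]
        change m * e 0 * (m * e 1) + m * e 0 * (m * e 2) + m * e 1 * (m * e 2) = _
        ring
      have h4 : (r⁻¹) ^ 4 = (algebraMap K L m ^ 2)⁻¹ := by rw [inv_pow, ← hr]; ring
      rw [h3, h4, map_mul, map_pow]
      field_simp
    · change algebraMap K L (crv e).a₆ = algebraMap K L (crv (twi m e)).a₆ * r⁻¹ ^ 6
      have h3 : (crv (twi m e)).a₆ = m ^ 3 * (crv e).a₆ := by
        rw [crv_a6, crv_a6]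
        change -(m * e 0 * (m * e 1) * (m * e 2)) = _
        ring
      have h4 : (r⁻¹) ^ 6 = (algebraMap K L m ^ 3)⁻¹ := by rw [inv_pow, ← hr]; ring
      rw [h3, h4, map_mul, map_pow]
      field_simp
  have hcσ : ∀ x : K, σ (algebraMap K L x) = algebraMap K L x := fun x => AlgEquiv.commutes σ x
  have S3 : Sc (σ : L →+* L) 1 ((crv e).baseChange L) ((crv e).baseChange L) := by
    refine ⟨one_ne_zero, ?_, ?_, ?_, ?_, ?_⟩
    · change algebraMap K L (crv e).a₁ = σ (algebraMap K L (crv e).a₁) * 1; rw [hcσ, mul_one]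
    · change algebraMap K L (crv e).a₂ = σ (algebraMap K L (crv e).a₂) * 1 ^ 2
      rw [hcσ, one_pow, mul_one]
    · change algebraMap K L (crv e).a₃ = σ (algebraMap K L (crv e).a₃) * 1 ^ 3
      rw [hcσ, one_pow, mul_one]
    · change algebraMap K L (crv e).a₄ = σ (algebraMap K L (crv e).a₄) * 1 ^ 4
      rw [hcσ, one_pow, mul_one]
    · change algebraMap K L (crv e).a₆ = σ (algebraMap K L (crv e).a₆) * 1 ^ 6
      rw [hcσ, one_pow, mul_one]
  have hG : Module.Finite ℤ (MP ((crv e).baseChange L)) := finite_base hMWR he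
  have hG1 : Module.Finite ℤ (MP ((crv e).baseChange K)) := (hMWR K e he).1
  have hG2 : Module.Finite ℤ (MP ((crv (twi m e)).baseChange K)) := (hMWR K _ (rt_twi he hm)).1
  have hnegY : ∀ x y : L, ((crv e).baseChange L).toAffine.negY x y = -y := by
    intro x y
    change -y - algebraMap K L (crv e).a₁ * x - algebraMap K L (crv e).a₃ = -y
    rw [crv_a1, crv_a3, map_zero, zero_mul, sub_zero, sub_zero]
  have hneg : ∀ (x y : L) (h : ((crv e).baseChange L).toAffine.Nonsingular x y)
      (h' : ((crv e).baseChange L).toAffine.Nonsingular x (-y)),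
      (Affine.Point.some x (-y) h' : MP ((crv e).baseChange L)) =
        -(Affine.Point.some x y h : MP ((crv e).baseChange L)) := by
    intro x y h h'
    refine pt_ext' (W := (crv e).baseChange L) rfl ?_
    exact (hnegY x y).symm
  change Module.finrank ℤ (MP ((crv e).baseChange L)) =
    Module.finrank ℤ (MP ((crv e).baseChange K)) +
      Module.finrank ℤ (MP ((crv (twi m e)).baseChange K))
  refine rank_add (G := MP ((crv e).baseChange L)) (G₁ := MP ((crv e).baseChange K))
    (G₂ := MP ((crv (twi m e)).baseChange K)) (mu S1) (mu S2) (mu_inj S1) (mu_inj S2) (mu S3)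
    ?_ ?_ ?_ ?_ ?_
  · rintro (_ | ⟨x, y, h⟩)
    · rfl
    · refine pt_ext' (W := (crv e).baseChange L) ?_ ?_
      · change σ (algebraMap K L x * 1 ^ 2) * 1 ^ 2 = algebraMap K L x * 1 ^ 2
        simp
      · change σ (algebraMap K L y * 1 ^ 3) * 1 ^ 3 = algebraMap K L y * 1 ^ 3
        simp
  · rintro (_ | ⟨x, y, h⟩)
    · change (0 : MP ((crv e).baseChange L)) = -0
      rw [neg_zero]
    · have hns : ((crv e).baseChange L).toAffine.Nonsingular (algebraMap K L x * r⁻¹ ^ 2)
          (algebraMap K L y * r⁻¹ ^ 3) := (ns_iff S2 x y).2 h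
      have hns' : ((crv e).baseChange L).toAffine.Nonsingular (algebraMap K L x * r⁻¹ ^ 2)
          (-(algebraMap K L y * r⁻¹ ^ 3)) := by
        have h3 := (Affine.nonsingular_neg ..).2 hns
        rwa [hnegY] at h3
      refine Eq.trans ?_ (hneg _ _ hns hns')
      refine pt_ext' (W := (crv e).baseChange L) ?_ ?_
      · change σ (algebraMap K L x * r⁻¹ ^ 2) * 1 ^ 2 = algebraMap K L x * r⁻¹ ^ 2
        rw [map_mul, map_pow, map_inv₀, hσr, AlgEquiv.commutes]
        simp
      · change σ (algebraMap K L y * r⁻¹ ^ 3) * 1 ^ 3 = -(algebraMap K L y * r⁻¹ ^ 3)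
        rw [map_mul, map_pow, map_inv₀, hσr, AlgEquiv.commutes, inv_neg]
        ring
  · rintro (_ | ⟨x, y, h⟩)
    · rfl
    · refine pt_ext' (W := (crv e).baseChange L) ?_ ?_
      · change σ (σ x * 1 ^ 2) * 1 ^ 2 = x
        simp [hσσ]
      · change σ (σ y * 1 ^ 3) * 1 ^ 3 = y
        simp [hσσ]
  · rintro (_ | ⟨x, y, h⟩) hR
    · exact ⟨0, rfl⟩
    · have hR' : σ x * 1 ^ 2 = x ∧ σ y * 1 ^ 3 = y :=
        pt_inj' (W := (crv e).baseChange L) (h := (ns_iff S3 x y).2 h) (h' := h) hR
      rw [one_pow, one_pow, mul_one, mul_one] at hR'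
      obtain ⟨x', hx'⟩ := hfix x hR'.1
      obtain ⟨y', hy'⟩ := hfix y hR'.2
      have hn : ((crv e).baseChange K).toAffine.Nonsingular x' y' := by
        rw [← ns_iff S1, one_pow, one_pow, mul_one, mul_one, hx', hy']
        exact h
      refine ⟨Affine.Point.some x' y' hn, ?_⟩
      refine pt_ext' (W := (crv e).baseChange L) ?_ ?_
      · change algebraMap K L x' * 1 ^ 2 = x
        rw [one_pow, mul_one, hx']
      · change algebraMap K L y' * 1 ^ 3 = y
        rw [one_pow, mul_one, hy']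
  · rintro (_ | ⟨x, y, h⟩) hR
    · exact ⟨0, rfl⟩
    · have hR' : σ x * 1 ^ 2 = x ∧ σ y * 1 ^ 3 = ((crv e).baseChange L).toAffine.negY x y :=
        pt_inj' (W := (crv e).baseChange L) (h := (ns_iff S3 x y).2 h)
          (h' := (Affine.nonsingular_neg ..).2 h) hR
      rw [one_pow, one_pow, mul_one, mul_one, hnegY] at hR'
      obtain ⟨x', hx'⟩ := hfix (x * r ^ 2) (by
        rw [map_mul, map_pow, hσr, hR'.1]
        ring)
      obtain ⟨y', hy'⟩ := hfix (y * r ^ 3) (by
        rw [map_mul, map_pow, hσr, hR'.2]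
        ring)
      have e1 : algebraMap K L x' * r⁻¹ ^ 2 = x := by
        rw [hx']
        field_simp
      have e2 : algebraMap K L y' * r⁻¹ ^ 3 = y := by
        rw [hy']
        field_simp
      have hn : ((crv (twi m e)).baseChange K).toAffine.Nonsingular x' y' := by
        rw [← ns_iff S2, e1, e2]
        exact h
      exact ⟨Affine.Point.some x' y' hn, pt_ext' (W := (crv e).baseChange L) e1 e2⟩

end Pool.Agent.Q176.FT
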